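import Pool.Agent.W325.KZ.Defs

/-!
# Project KZ, part SUPB: the maximum of a random polynomial on `[-1, 1]`
-/

set_option autoImplicit false

open Finset MeasureTheory ProbabilityTheory Filter Topology Pool.Agent.W325.KZ

namespace Pool.Agent.W789.KZ

/-- the derivative of the polynomial -/
noncomputable def dp (a : ℕ → ℝ) (L : ℕ) (x : ℝ) : ℝ :=
  ∑ k ∈ range L, a k * ((k : ℝ) * x ^ (k - 1))

lemma hasDerivAt_pol (a : ℕ → ℝ) (L : ℕ) (x : ℝ) : HasDerivAt (pol a L) (dp a L x) x := by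
  unfold pol dp
  have : HasDerivAt (fun x => ∑ k ∈ range L, a k * x ^ k)
      (∑ k ∈ range L, a k * ((k : ℝ) * x ^ (k - 1))) x := by
    apply HasDerivAt.fun_sum
    intro k _
    exact (hasDerivAt_pow k x).const_mul (a k)
  exact this

lemma continuous_dp (a : ℕ → ℝ) (L : ℕ) : Continuous (dp a L) := by
  unfold dp
  fun_prop

lemma pol_zero (a : ℕ → ℝ) (L : ℕ) (hL : 1 ≤ L) : pol a L 0 = a 0 := by
  unfold pol
  obtain ⟨n, rfl⟩ : ∃ n, L = n + 1 := ⟨L - 1, by omega⟩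
  rw [Finset.sum_range_succ']
  simp

/-- the majorant -/
noncomputable def MM (L : ℕ) (a : ℕ → ℝ) : ENNReal :=
  ENNReal.ofReal |a 0| + ∫⁻ x in Set.Ioc (-1 : ℝ) 1, ENNReal.ofReal |dp a L x|

lemma le_MM (L : ℕ) (hL : 1 ≤ L) (a : ℕ → ℝ) (t : ℝ) (ht : |t| ≤ 1) :
    ENNReal.ofReal |pol a L t| ≤ MM L a := by
  have h1 : ∫ x in (0 : ℝ)..t, dp a L x = pol a L t - pol a L 0 :=
    intervalIntegral.integral_eq_sub_of_hasDerivAt (fun x _ => hasDerivAt_pol a L x)
      ((continuous_dp a L).intervalIntegrable _ _)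
  have h2 : |pol a L t| ≤ |a 0| + ‖∫ x in (0 : ℝ)..t, dp a L x‖ := by
    rw [h1, pol_zero a L hL, Real.norm_eq_abs]
    have := abs_add_le (a 0) (pol a L t - a 0)
    simpa using this
  have h3 : ‖∫ x in (0 : ℝ)..t, dp a L x‖ ≤ ∫ x in Set.uIoc 0 t, ‖dp a L x‖ :=
    intervalIntegral.norm_integral_le_integral_norm_uIoc
  have hint : IntegrableOn (fun x => ‖dp a L x‖) (Set.uIoc 0 t) volume := by
    apply Continuous.integrableOn_uIoc
    exact (continuous_dp a L).norm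
  have h4 : ENNReal.ofReal (∫ x in Set.uIoc 0 t, ‖dp a L x‖) =
      ∫⁻ x in Set.uIoc 0 t, ENNReal.ofReal ‖dp a L x‖ :=
    ofReal_integral_eq_lintegral_ofReal hint (Filter.Eventually.of_forall fun x => norm_nonneg _)
  have hsub : Set.uIoc 0 t ⊆ Set.Ioc (-1 : ℝ) 1 := by
    obtain ⟨h5, h6⟩ := abs_le.1 ht
    unfold Set.uIoc
    apply Set.Ioc_subset_Ioc
    · exact le_min (by norm_num) h5
    · exact max_le (by norm_num) h6
  unfold MM
  calc ENNReal.ofReal |pol a L t| ≤ ENNReal.ofReal (|a 0| + ‖∫ x in (0 : ℝ)..t, dp a L x‖) :=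
        ENNReal.ofReal_le_ofReal h2
    _ ≤ ENNReal.ofReal |a 0| + ENNReal.ofReal ‖∫ x in (0 : ℝ)..t, dp a L x‖ :=
        ENNReal.ofReal_add_le
    _ ≤ ENNReal.ofReal |a 0| + ENNReal.ofReal (∫ x in Set.uIoc 0 t, ‖dp a L x‖) := by
        gcongr
    _ ≤ _ := by
        rw [h4]
        simp only [Real.norm_eq_abs]
        exact add_le_add le_rfl (lintegral_mono_set hsub)

/-- the pointwise bound -/
lemma sum_le (L : ℕ) (hL : 1 ≤ L) (y : ℝ) (h0 : 0 ≤ y) (h1 : y ≤ 1) :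
    ∑ k ∈ range L, ((k : ℝ) * y ^ (k - 1)) ^ 2 ≤ 16 / (1 - y + 1 / L) ^ 3 := by
  have hLp : (0 : ℝ) < L := by exact_mod_cast hL
  have hd : (0 : ℝ) < 1 / L := by positivity
  by_cases hy : 1 - y < 1 / L
  · have hb : ∑ k ∈ range L, ((k : ℝ) * y ^ (k - 1)) ^ 2 ≤ (L : ℝ) ^ 3 := by
      calc ∑ k ∈ range L, ((k : ℝ) * y ^ (k - 1)) ^ 2 ≤ ∑ k ∈ range L, (L : ℝ) ^ 2 := by
            apply Finset.sum_le_sum
            intro k hk
            have hk' : (k : ℝ) ≤ L := by exact_mod_cast (Finset.mem_range.1 hk).le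
            have : (k : ℝ) * y ^ (k - 1) ≤ L * 1 :=
              mul_le_mul hk' (pow_le_one₀ h0 h1) (pow_nonneg h0 _) hLp.le
            rw [mul_one] at this
            exact pow_le_pow_left₀ (by positivity) this 2
        _ = (L : ℝ) ^ 3 := by
            rw [Finset.sum_const, Finset.card_range, nsmul_eq_mul]; ring
    refine hb.trans ?_
    rw [le_div_iff₀ (by positivity)]
    have h2 : 1 - y + 1 / L ≤ 2 / L := by
      have : (2 : ℝ) / L = 1 / L + 1 / L := by ring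
      linarith
    have h3 : (1 - y + 1 / L) ^ 3 ≤ (2 / (L : ℝ)) ^ 3 :=
      pow_le_pow_left₀ (by linarith) h2 3
    calc (L : ℝ) ^ 3 * (1 - y + 1 / L) ^ 3 ≤ (L : ℝ) ^ 3 * (2 / (L : ℝ)) ^ 3 := by gcongr
      _ = 8 := by field_simp; norm_num
      _ ≤ 16 := by norm_num
  · push Not at hy
    have hy1 : y < 1 := by linarith
    have hu : 0 < 1 - y := by linarith
    have hb : ∑ k ∈ range L, ((k : ℝ) * y ^ (k - 1)) ^ 2 ≤ 2 / (1 - y) ^ 3 := by
      obtain ⟨n, rfl⟩ : ∃ n, L = n + 1 := ⟨L - 1, by omega⟩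
      rw [Finset.sum_range_succ']
      simp only [Nat.cast_zero, zero_mul, ne_eq, OfNat.ofNat_ne_zero, not_false_eq_true, zero_pow,
        add_zero, Nat.add_sub_cancel]
      have hs := hasSum_choose_mul_geometric_of_norm_lt_one 2 (r := y)
        (by rw [Real.norm_eq_abs, abs_of_nonneg h0]; exact hy1)
      have hs2 := hs.mul_left 2
      have h5 : ∑ i ∈ range n, 2 * (((i + 2).choose 2 : ℝ) * y ^ i) ≤ 2 * (1 / (1 - y) ^ (2 + 1)) :=
        sum_le_hasSum _ (fun i _ => by positivity) hs2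
      calc ∑ k ∈ range n, (((k + 1 : ℕ) : ℝ) * y ^ k) ^ 2
          ≤ ∑ i ∈ range n, 2 * (((i + 2).choose 2 : ℝ) * y ^ i) := by
            apply Finset.sum_le_sum
            intro k _
            have h6 : 2 * ((k + 2).choose 2 : ℝ) = (k + 2) * (k + 1) := by
              have := Nat.choose_two_right (k + 2)
              have h7 : 2 * (k + 2).choose 2 = (k + 2) * (k + 1) := by
                rw [this]
                exact Nat.mul_div_cancel' (by
                  have := Nat.even_mul_succ_self (k + 1)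
                  rw [mul_comm] at this
                  exact this.two_dvd)
              exact_mod_cast h7
            have h8 : (y ^ k) ^ 2 ≤ y ^ k := by
              have : y ^ k ≤ 1 := pow_le_one₀ h0 h1
              have h9 : 0 ≤ y ^ k := pow_nonneg h0 _
              nlinarith
            rw [mul_pow, ← mul_assoc, h6]
            apply mul_le_mul _ h8 (by positivity) (by positivity)
            push_cast
            nlinarith [(Nat.cast_nonneg k : (0 : ℝ) ≤ k)]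
        _ ≤ 2 * (1 / (1 - y) ^ (2 + 1)) := h5
        _ = 2 / (1 - y) ^ 3 := by ring
    refine hb.trans ?_
    rw [div_le_div_iff₀ (by positivity) (by positivity)]
    have h2 : 1 - y + 1 / L ≤ 2 * (1 - y) := by linarith
    have h3 : (1 - y + 1 / L) ^ 3 ≤ (2 * (1 - y)) ^ 3 := pow_le_pow_left₀ (by linarith) h2 3
    calc 2 * (1 - y + 1 / L) ^ 3 ≤ 2 * (2 * (1 - y)) ^ 3 := by gcongr
      _ = 16 * (1 - y) ^ 3 := by ring

/-- the majorising function -/
noncomputable def FF (d u : ℝ) : ℝ := 4 / ((1 - u + d) * Real.sqrt (1 - u + d))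

lemma sqrt_le_FF (L : ℕ) (hL : 1 ≤ L) (y : ℝ) (h0 : 0 ≤ y) (h1 : y ≤ 1) :
    Real.sqrt (∑ k ∈ range L, ((k : ℝ) * y ^ (k - 1)) ^ 2) ≤ FF (1 / L) y := by
  have hLp : (0 : ℝ) < L := by exact_mod_cast hL
  have hd : (0 : ℝ) < 1 / L := by positivity
  have hu : 0 < 1 - y + 1 / L := by linarith
  apply Real.sqrt_le_iff.2
  unfold FF
  refine ⟨by positivity, (sum_le L hL y h0 h1).trans (le_of_eq ?_)⟩
  have hs : Real.sqrt (1 - y + 1 / L) ^ 2 = 1 - y + 1 / L := Real.sq_sqrt hu.le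
  rw [div_pow, mul_pow, hs]
  congr 1
  norm_num

lemma hasDerivAt_G (d x : ℝ) (hx : 0 < 1 - x + d) :
    HasDerivAt (fun x => 8 / Real.sqrt (1 - x + d)) (FF d x) x := by
  have h1 : HasDerivAt (fun x : ℝ => 1 - x + d) (-1) x := by
    simpa using ((hasDerivAt_id x).const_sub 1).add_const d
  have h2 := h1.sqrt hx.ne'
  have hs : 0 < Real.sqrt (1 - x + d) := Real.sqrt_pos.2 hx
  have h3 := (h2.inv hs.ne').const_mul 8
  have hs2 : Real.sqrt (1 - x + d) ^ 2 = 1 - x + d := Real.sq_sqrt hx.le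
  have e1 : (fun x => 8 / Real.sqrt (1 - x + d)) = fun x => 8 * (Real.sqrt (1 - x + d))⁻¹ := by
    funext y; rw [div_eq_mul_inv]
  rw [e1]
  have e2 : FF d x = 8 * (-(-1 / (2 * Real.sqrt (1 - x + d))) / Real.sqrt (1 - x + d) ^ 2) := by
    unfold FF
    rw [hs2]
    field_simp
    norm_num
  rw [e2]
  exact h3

lemma int_FF (d : ℝ) (hd : 0 < d) :
    ∫⁻ x in Set.Ioc (0 : ℝ) 1, ENNReal.ofReal (FF d x) ≤ ENNReal.ofReal (8 / Real.sqrt d) := by
  have hpos : ∀ x ∈ Set.uIcc (0 : ℝ) 1, 0 < 1 - x + d := by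
    intro x hx
    rw [Set.uIcc_of_le (by norm_num)] at hx
    linarith [hx.2]
  have hcont : ContinuousOn (FF d) (Set.uIcc 0 1) := by
    intro x hx
    have h := hpos x hx
    have hs : 0 < Real.sqrt (1 - x + d) := Real.sqrt_pos.2 h
    apply ContinuousAt.continuousWithinAt
    unfold FF
    apply ContinuousAt.div (by fun_prop) (by fun_prop)
    positivity
  have hint : IntervalIntegrable (FF d) volume 0 1 := hcont.intervalIntegrable
  have h1 : ∫ x in (0 : ℝ)..1, FF d x = 8 / Real.sqrt (1 - 1 + d) - 8 / Real.sqrt (1 - 0 + d) :=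
    intervalIntegral.integral_eq_sub_of_hasDerivAt (fun x hx => hasDerivAt_G d x (hpos x hx)) hint
  rw [intervalIntegral.integral_of_le (by norm_num)] at h1
  have hint2 : IntegrableOn (FF d) (Set.Ioc 0 1) volume :=
    (intervalIntegrable_iff_integrableOn_Ioc_of_le (by norm_num)).1 hint
  rw [← ofReal_integral_eq_lintegral_ofReal hint2]
  · rw [h1]
    apply ENNReal.ofReal_le_ofReal
    have : 0 ≤ 8 / Real.sqrt (1 - 0 + d) := by positivity
    have e : (1 : ℝ) - 1 + d = d := by ring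
    rw [e]
    linarith
  · rw [Filter.EventuallyLE, ae_restrict_iff' measurableSet_Ioc]
    apply Filter.Eventually.of_forall
    intro x hx
    have : 0 < 1 - x + d := by linarith [hx.2]
    show 0 ≤ FF d x
    unfold FF
    positivity

lemma int_FF' (d : ℝ) (hd : 0 < d) :
    ∫⁻ x in Set.Ioc (-1 : ℝ) 0, ENNReal.ofReal (FF d (-x)) ≤ ENNReal.ofReal (8 / Real.sqrt d) := by
  have h := (Measure.measurePreserving_neg (volume : Measure ℝ))
  have h2 : ∫⁻ x in (fun x : ℝ => -x) ⁻¹' (Set.Icc (0 : ℝ) 1), ENNReal.ofReal (FF d (-x)) =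
      ∫⁻ x in Set.Icc (0 : ℝ) 1, ENNReal.ofReal (FF d x) :=
    h.setLIntegral_comp_preimage_emb (MeasurableEquiv.neg ℝ).measurableEmbedding
      (fun x => ENNReal.ofReal (FF d x)) (Set.Icc (0 : ℝ) 1)
  have h3 : Set.Ioc (-1 : ℝ) 0 ⊆ (fun x : ℝ => -x) ⁻¹' (Set.Icc (0 : ℝ) 1) := by
    intro x hx
    simp only [Set.mem_preimage, Set.mem_Icc]
    constructor <;> linarith [hx.1, hx.2]
  calc ∫⁻ x in Set.Ioc (-1 : ℝ) 0, ENNReal.ofReal (FF d (-x))
      ≤ ∫⁻ x in (fun x : ℝ => -x) ⁻¹' (Set.Icc (0 : ℝ) 1), ENNReal.ofReal (FF d (-x)) :=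
        lintegral_mono_set h3
    _ = ∫⁻ x in Set.Icc (0 : ℝ) 1, ENNReal.ofReal (FF d x) := h2
    _ = ∫⁻ x in Set.Ioc (0 : ℝ) 1, ENNReal.ofReal (FF d x) := by
        rw [MeasureTheory.restrict_Ioc_eq_restrict_Icc]
    _ ≤ _ := int_FF d hd

lemma int_sqrt (L : ℕ) (hL : 1 ≤ L) :
    ∫⁻ x in Set.Ioc (-1 : ℝ) 1,
      ENNReal.ofReal (Real.sqrt (∑ k ∈ range L, ((k : ℝ) * x ^ (k - 1)) ^ 2)) ≤
      ENNReal.ofReal (16 * Real.sqrt L) := by
  have hLp : (0 : ℝ) < L := by exact_mod_cast hL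
  have hd : (0 : ℝ) < 1 / L := by positivity
  have e : Set.Ioc (-1 : ℝ) 1 = Set.Ioc (-1 : ℝ) 0 ∪ Set.Ioc (0 : ℝ) 1 :=
    (Set.Ioc_union_Ioc_eq_Ioc (by norm_num) (by norm_num)).symm
  have key : ∀ x : ℝ, ∀ y : ℝ, y ^ 2 = x ^ 2 →
      ∑ k ∈ range L, ((k : ℝ) * x ^ (k - 1)) ^ 2 = ∑ k ∈ range L, ((k : ℝ) * y ^ (k - 1)) ^ 2 := by
    intro x y h
    apply Finset.sum_congr rfl
    intro k _
    rw [mul_pow, mul_pow, ← pow_mul, ← pow_mul, mul_comm (k - 1) 2, pow_mul, pow_mul, h]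
  have hsq : 8 / Real.sqrt (1 / L) = 8 * Real.sqrt L := by
    rw [Real.sqrt_div (by norm_num), Real.sqrt_one]
    field_simp
  rw [e]
  refine (lintegral_union_le _ _ _).trans ?_
  have hA : ∫⁻ x in Set.Ioc (-1 : ℝ) 0,
      ENNReal.ofReal (Real.sqrt (∑ k ∈ range L, ((k : ℝ) * x ^ (k - 1)) ^ 2)) ≤
      ENNReal.ofReal (8 * Real.sqrt L) := by
    rw [← hsq]
    refine le_trans ?_ (int_FF' _ hd)
    apply setLIntegral_mono' measurableSet_Ioc
    intro x hx
    apply ENNReal.ofReal_le_ofReal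
    rw [key x (-x) (by ring)]
    exact sqrt_le_FF L hL (-x) (by linarith [hx.2]) (by linarith [hx.1])
  have hB : ∫⁻ x in Set.Ioc (0 : ℝ) 1,
      ENNReal.ofReal (Real.sqrt (∑ k ∈ range L, ((k : ℝ) * x ^ (k - 1)) ^ 2)) ≤
      ENNReal.ofReal (8 * Real.sqrt L) := by
    rw [← hsq]
    refine le_trans ?_ (int_FF _ hd)
    apply setLIntegral_mono' measurableSet_Ioc
    intro x hx
    apply ENNReal.ofReal_le_ofReal
    exact sqrt_le_FF L hL x hx.1.le hx.2
  refine (add_le_add hA hB).trans ?_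
  rw [← ENNReal.ofReal_add (by positivity) (by positivity)]
  apply ENNReal.ofReal_le_ofReal
  linarith

lemma measurable_dp2 (L : ℕ) :
    Measurable (fun p : (ℕ → ℝ) × ℝ => ENNReal.ofReal |dp p.1 L p.2|) := by
  unfold dp
  apply Measurable.ennreal_ofReal
  apply Measurable.abs
  apply Finset.measurable_fun_sum
  intro k _
  have h1 : Measurable fun p : (ℕ → ℝ) × ℝ => p.1 k := (measurable_pi_apply k).comp measurable_fst
  exact h1.mul ((measurable_snd.pow_const _).const_mul _)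

lemma lint_MM (hL1 : S_L1) (L : ℕ) (hL : 1 ≤ L) :
    ∫⁻ a, MM L a ∂ga ≤ ENNReal.ofReal (17 * Real.sqrt L) := by
  have hLp : (1 : ℝ) ≤ L := by exact_mod_cast hL
  unfold MM
  rw [lintegral_add_left (by fun_prop)]
  have h1 : ∫⁻ a, ENNReal.ofReal |a 0| ∂ga ≤ ENNReal.ofReal 1 := by
    have := hL1 1 (fun _ => 1)
    simpa using this
  have h2 : ∫⁻ a, (∫⁻ x in Set.Ioc (-1 : ℝ) 1, ENNReal.ofReal |dp a L x|) ∂ga =
      ∫⁻ x in Set.Ioc (-1 : ℝ) 1, (∫⁻ a, ENNReal.ofReal |dp a L x| ∂ga) :=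
    lintegral_lintegral_swap (measurable_dp2 L).aemeasurable
  have h3 : ∫⁻ x in Set.Ioc (-1 : ℝ) 1, (∫⁻ a, ENNReal.ofReal |dp a L x| ∂ga) ≤
      ENNReal.ofReal (16 * Real.sqrt L) := by
    refine le_trans ?_ (int_sqrt L hL)
    apply lintegral_mono
    intro x
    exact hL1 L (fun k => (k : ℝ) * x ^ (k - 1))
  rw [h2]
  refine (add_le_add h1 h3).trans ?_
  rw [← ENNReal.ofReal_add (by positivity) (by positivity)]
  apply ENNReal.ofReal_le_ofReal
  have : 1 ≤ Real.sqrt L := Real.one_le_sqrt.2 hLp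
  linarith

theorem supb (hL : S_L1) : S_SUPB := by
  refine ⟨68, by norm_num, ?_⟩
  intro L hL1
  have hLp : (0 : ℝ) < L := by exact_mod_cast hL1
  have hsp : 0 < Real.sqrt L := Real.sqrt_pos.2 hLp
  constructor
  · have e : {a : ℕ → ℝ | ∀ t : ℝ, |t| ≤ 1 → |pol a L t| ≤ 68 * Real.sqrt L} =
        ⋂ t : ℝ, ⋂ (_ : |t| ≤ 1), {a : ℕ → ℝ | |pol a L t| ≤ 68 * Real.sqrt L} := by
      ext a
      simp
    rw [e]
    apply IsClosed.measurableSet
    apply isClosed_iInter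
    intro t
    apply isClosed_iInter
    intro _
    apply isClosed_le _ continuous_const
    unfold pol
    fun_prop
  · have hsub : {a : ℕ → ℝ | ∀ t : ℝ, |t| ≤ 1 → |pol a L t| ≤ 68 * Real.sqrt L}ᶜ ⊆
        {a | ENNReal.ofReal (68 * Real.sqrt L) ≤ MM L a} := by
      intro a ha
      simp only [Set.mem_compl_iff, Set.mem_ofPred_eq, not_forall, not_le] at ha
      obtain ⟨t, ht, h⟩ := ha
      exact (ENNReal.ofReal_le_ofReal h.le).trans (le_MM L hL1 a t ht)
    have hmeas : Measurable (MM L) := by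
      unfold MM
      exact Measurable.fun_add (measurable_pi_apply 0).abs.ennreal_ofReal
        (measurable_dp2 L).lintegral_prod_right
    refine (measure_mono hsub).trans ?_
    refine (meas_ge_le_lintegral_div hmeas.aemeasurable ?_ ENNReal.ofReal_ne_top).trans ?_
    · simp only [ne_eq, ENNReal.ofReal_eq_zero, not_le]; positivity
    · rw [ENNReal.div_le_iff_le_mul (Or.inl (by
        simp only [ne_eq, ENNReal.ofReal_eq_zero, not_le]; positivity))
        (Or.inl ENNReal.ofReal_ne_top)]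
      refine (lint_MM hL L hL1).trans (le_of_eq ?_)
      have e4 : (4⁻¹ : ENNReal) = ENNReal.ofReal (1 / 4) := by
        rw [ENNReal.ofReal_div_of_pos (by norm_num)]
        simp
      rw [e4, ← ENNReal.ofReal_mul (by norm_num)]
      congr 1
      ring

end Pool.Agent.W789.KZ
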